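import Pool.Agent.Helper51.LT.St

/-!
Project LT, module PT: a point with large derivative on a radius.
-/

set_option autoImplicit false

namespace Pool.Agent.Helper86.LT

open Pool.Agent.Helper51.LT
open Complex MeasureTheory Set Metric Filter Topology
open scoped Real

/-- growth along an affine piece of a radius -/
lemma path38 (Φ : ℂ → ℂ) (w₀ u : ℂ) (ρ p q M : ℝ) (hΦ : DifferentiableOn ℂ Φ (ball 0 1))
    (hρ0 : 0 < ρ) (hρ1 : ρ < 1) (hu0 : u ≠ 0) (hu : ‖u‖ ≤ ρ) (hq : q * q = 1)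
    (hr : ∀ t ∈ Icc (0 : ℝ) 1, 0 ≤ p + q * t ∧ p + q * t ≤ 1)
    (hM : M ≤ 62) (hstart : ‖Φ ((p : ℂ) * u) - w₀‖ ≤ M)
    (hs : ∀ v : ℂ, ‖v‖ ≤ ρ → ‖Φ v - w₀‖ ≤ 100 →
      ‖deriv Φ v‖ * (1 - ‖v‖) * Real.log (1 / (1 - ρ)) < 38) :
    ‖Φ (((p + q : ℝ) : ℂ) * u) - Φ ((p : ℂ) * u)‖ ≤ 38 := by
  set L : ℝ := Real.log (1 / (1 - ρ)) with hL
  have hρ' : 0 < 1 - ρ := by linarith
  have hLpos : 0 < L := by
    rw [hL]
    apply Real.log_pos
    rw [lt_div_iff₀ hρ']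
    linarith
  have hn0 : 0 < ‖u‖ := norm_pos_iff.mpr hu0
  set n : ℝ := ‖u‖ with hn
  -- the logarithm lies between zero and `L`
  have hval : ∀ t ∈ Icc (0 : ℝ) 1, 0 < 1 - (p + q * t) * n ∧ (p + q * t) * n ≤ ρ ∧
      0 ≤ (p + q * t) * n := by
    intro t ht
    obtain ⟨h0, h1⟩ := hr t ht
    have h2 : (p + q * t) * n ≤ 1 * n := mul_le_mul_of_nonneg_right h1 hn0.le
    have h3 : 0 ≤ (p + q * t) * n := mul_nonneg h0 hn0.le
    refine ⟨by linarith, by linarith, h3⟩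
  have hlog : ∀ t ∈ Icc (0 : ℝ) 1, 0 ≤ -Real.log (1 - (p + q * t) * n) ∧
      -Real.log (1 - (p + q * t) * n) ≤ L := by
    intro t ht
    obtain ⟨h0, h1, h2⟩ := hval t ht
    constructor
    · have := Real.log_nonpos h0.le (by linarith)
      linarith
    · rw [hL, one_div, Real.log_inv]
      have := Real.log_le_log hρ' (show 1 - ρ ≤ 1 - (p + q * t) * n by linarith)
      linarith
  let B : ℝ → ℝ := fun t => (38 / L) * (q * (-Real.log (1 - (p + q * t) * n)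
    - -Real.log (1 - (p + q * 0) * n)))
  let B' : ℝ → ℝ := fun t => (38 / L) * (n / (1 - (p + q * t) * n))
  let F : ℝ → ℂ := fun t => Φ (((p + q * t : ℝ) : ℂ) * u) - Φ ((p : ℂ) * u)
  let F' : ℝ → ℂ := fun t => deriv Φ (((p + q * t : ℝ) : ℂ) * u) * ((q : ℂ) * u)
  have hqabs : |q| = 1 := by
    have h1 : |q| * |q| = 1 := by rw [← abs_mul, hq, abs_one]
    have h2 : 0 ≤ |q| := abs_nonneg q
    nlinarith
  have h00 : (0 : ℝ) ∈ Icc (0 : ℝ) 1 := ⟨le_refl _, zero_le_one⟩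
  have hB38 : ∀ t ∈ Icc (0 : ℝ) 1, B t ≤ 38 := by
    intro t ht
    obtain ⟨a1, a2⟩ := hlog t ht
    obtain ⟨b1, b2⟩ := hlog 0 h00
    have h1 : q * (-Real.log (1 - (p + q * t) * n) - -Real.log (1 - (p + q * 0) * n)) ≤ L := by
      have h2 : q * (-Real.log (1 - (p + q * t) * n) - -Real.log (1 - (p + q * 0) * n)) ≤
          |q| * |(-Real.log (1 - (p + q * t) * n) - -Real.log (1 - (p + q * 0) * n))| := by
        rw [← abs_mul]; exact le_abs_self _
      rw [hqabs, one_mul] at h2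
      refine h2.trans ?_
      rw [abs_le]
      constructor <;> linarith
    calc B t ≤ (38 / L) * L := by
          apply mul_le_mul_of_nonneg_left h1
          positivity
      _ = 38 := by field_simp
  have hin : ∀ t ∈ Icc (0 : ℝ) 1, ‖(((p + q * t : ℝ) : ℂ) * u)‖ = (p + q * t) * n := by
    intro t ht
    rw [norm_mul, Complex.norm_real, Real.norm_eq_abs, abs_of_nonneg (hr t ht).1]
  have hball : ∀ t ∈ Icc (0 : ℝ) 1, (((p + q * t : ℝ) : ℂ) * u) ∈ ball (0 : ℂ) 1 := by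
    intro t ht
    rw [mem_ball_zero_iff, hin t ht]
    linarith [(hval t ht).1]
  have hF' : ∀ t ∈ Icc (0 : ℝ) 1, HasDerivAt F (F' t) t := by
    intro t ht
    have h1 : HasDerivAt (fun s : ℝ => (((p + q * s : ℝ) : ℂ) * u)) ((q : ℂ) * u) t := by
      have h2 : HasDerivAt (fun s : ℝ => p + q * s) q t := by
        simpa using ((hasDerivAt_id t).const_mul q).const_add p
      exact (h2.ofReal_comp).mul_const u
    have h3 : HasDerivAt Φ (deriv Φ (((p + q * t : ℝ) : ℂ) * u)) (((p + q * t : ℝ) : ℂ) * u) :=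
      (hΦ.differentiableAt (isOpen_ball.mem_nhds (hball t ht))).hasDerivAt
    have h4 : HasDerivAt (fun s : ℝ => Φ (((p + q * s : ℝ) : ℂ) * u))
        (deriv Φ (((p + q * t : ℝ) : ℂ) * u) * ((q : ℂ) * u)) t := h3.comp t h1
    exact h4.sub_const _
  have hBd : ∀ t ∈ Icc (0 : ℝ) 1, HasDerivAt B (B' t) t := by
    intro t ht
    obtain ⟨h0, h1, h2⟩ := hval t ht
    have h3 : HasDerivAt (fun s : ℝ => 1 - (p + q * s) * n) (-(q * n)) t := by
      have h4 : HasDerivAt (fun s : ℝ => p + q * s) q t := by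
        simpa using ((hasDerivAt_id t).const_mul q).const_add p
      exact (h4.mul_const n).const_sub 1
    have h5 := (((h3.log h0.ne').neg.sub_const
      (-Real.log (1 - (p + q * 0) * n))).const_mul q).const_mul (38 / L)
    have h6 : 38 / L * (q * -(-(q * n) / (1 - (p + q * t) * n))) = B' t := by
      show 38 / L * (q * -(-(q * n) / (1 - (p + q * t) * n))) =
        (38 / L) * (n / (1 - (p + q * t) * n))
      have h7 : q * -(-(q * n) / (1 - (p + q * t) * n)) =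
          (q * q) * (n / (1 - (p + q * t) * n)) := by ring
      rw [h7, hq, one_mul]
    rw [h6] at h5
    exact h5
  have key := image_norm_le_of_norm_deriv_right_lt_deriv_boundary' (f := F) (f' := F') (a := 0)
    (b := 1) (B := B) (B' := B')
    (fun t ht => (hF' t ht).continuousAt.continuousWithinAt)
    (fun t ht => (hF' t ⟨ht.1, ht.2.le⟩).hasDerivWithinAt)
    (by
      show ‖Φ (((p + q * 0 : ℝ) : ℂ) * u) - Φ ((p : ℂ) * u)‖ ≤
        (38 / L) * (q * (-Real.log (1 - (p + q * 0) * n) - -Real.log (1 - (p + q * 0) * n)))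
      simp)
    (fun t ht => (hBd t ht).continuousAt.continuousWithinAt)
    (fun t ht => (hBd t ⟨ht.1, ht.2.le⟩).hasDerivWithinAt)
    (by
      intro t ht heq
      have ht' : t ∈ Icc (0 : ℝ) 1 := ⟨ht.1, ht.2.le⟩
      obtain ⟨h0, h1, h2⟩ := hval t ht'
      have hFle : ‖Φ (((p + q * t : ℝ) : ℂ) * u) - Φ ((p : ℂ) * u)‖ ≤ 38 := by
        have := hB38 t ht'
        rw [← heq] at this
        exact this
      have h3 : ‖Φ (((p + q * t : ℝ) : ℂ) * u) - w₀‖ ≤ 100 := by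
        have h4 : Φ (((p + q * t : ℝ) : ℂ) * u) - w₀ =
            (Φ (((p + q * t : ℝ) : ℂ) * u) - Φ ((p : ℂ) * u)) + (Φ ((p : ℂ) * u) - w₀) := by
          ring
        rw [h4]
        refine (norm_add_le _ _).trans ?_
        linarith
      have h5 := hs (((p + q * t : ℝ) : ℂ) * u) (by rw [hin t ht']; exact h1) h3
      rw [hin t ht'] at h5
      show ‖deriv Φ (((p + q * t : ℝ) : ℂ) * u) * ((q : ℂ) * u)‖ <
        (38 / L) * (n / (1 - (p + q * t) * n))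
      rw [norm_mul, norm_mul, Complex.norm_real, Real.norm_eq_abs, hqabs, one_mul]
      set D : ℝ := ‖deriv Φ (((p + q * t : ℝ) : ℂ) * u)‖ with hD
      have h6 : (38 / L) * (n / (1 - (p + q * t) * n)) =
          (38 / (L * (1 - (p + q * t) * n))) * n := by
        field_simp
      rw [h6]
      apply mul_lt_mul_of_pos_right _ hn0
      rw [lt_div_iff₀ (mul_pos hLpos h0)]
      calc D * (L * (1 - (p + q * t) * n)) = D * (1 - (p + q * t) * n) * L := by ring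
        _ < 38 := h5)
  have h11 : (1 : ℝ) ∈ Icc (0 : ℝ) 1 := ⟨zero_le_one, le_refl _⟩
  have hfin := (key h11).trans (hB38 1 h11)
  have h12 : F 1 = Φ (((p + q : ℝ) : ℂ) * u) - Φ ((p : ℂ) * u) := by
    show Φ (((p + q * 1 : ℝ) : ℂ) * u) - Φ ((p : ℂ) * u) = _
    rw [mul_one]
  rw [h12] at hfin
  exact hfin

theorem hPt : StPt := by
  intro Φ w₀ v₀ v₁ ρ hΦ hρ0 hρ1 hv0 hv1 hw0 hw1
  by_contra hcon
  push Not at hcon
  have hs : ∀ v : ℂ, ‖v‖ ≤ ρ → ‖Φ v - w₀‖ ≤ 100 →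
      ‖deriv Φ v‖ * (1 - ‖v‖) * Real.log (1 / (1 - ρ)) < 38 := hcon
  rcases lt_or_ge ‖Φ 0 - w₀‖ 60 with hA | hB
  · have hne : v₁ ≠ 0 := by
      rintro rfl
      linarith
    have h := path38 Φ w₀ v₁ ρ 0 1 60 hΦ hρ0 hρ1 hne hv1 (by norm_num)
      (by intro t ht; exact ⟨by linarith [ht.1], by linarith [ht.2]⟩) (by norm_num)
      (by simpa using hA.le) hs
    have h1 : ‖Φ v₁ - Φ 0‖ ≤ 38 := by simpa using h
    have h2 : Φ v₁ - w₀ = (Φ v₁ - Φ 0) + (Φ 0 - w₀) := by ring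
    have h3 : ‖Φ v₁ - w₀‖ ≤ ‖Φ v₁ - Φ 0‖ + ‖Φ 0 - w₀‖ := by
      rw [h2]; exact norm_add_le _ _
    linarith
  · have hne : v₀ ≠ 0 := by
      rintro rfl
      linarith
    have h := path38 Φ w₀ v₀ ρ 1 (-1) 21 hΦ hρ0 hρ1 hne hv0 (by norm_num)
      (by intro t ht; exact ⟨by linarith [ht.2], by linarith [ht.1]⟩) (by norm_num)
      (by simpa using hw0) hs
    have h1 : ‖Φ 0 - Φ v₀‖ ≤ 38 := by simpa using h
    have h2 : Φ 0 - w₀ = (Φ 0 - Φ v₀) + (Φ v₀ - w₀) := by ring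
    have h3 : ‖Φ 0 - w₀‖ ≤ ‖Φ 0 - Φ v₀‖ + ‖Φ v₀ - w₀‖ := by
      rw [h2]; exact norm_add_le _ _
    linarith

end Pool.Agent.Helper86.LT
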